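import Pool.Agent.Helper14.CPX.Stmts

/-!
Two frequent distances give a colouring.
-/

set_option autoImplicit false

namespace Pool.Agent.Helper93.CPX

open Pool.Agent.Helper14.CPX Pool.Agent.Helper14.Poly

theorem dist_toC (p q : Plane) : dist (toC p) (toC q) = dist p q := by
  rw [Complex.dist_eq_re_im, EuclideanSpace.dist_eq, Fin.sum_univ_two, Real.dist_eq, Real.dist_eq,
    sq_abs, sq_abs]
  rfl

theorem cnt_eq (t : ℕ) (c : ℕ → ℕ → ℕ) (K : ℕ) :
    cnt t c K = ((Finset.range K ×ˢ Finset.range K).filter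
      (fun p : ℕ × ℕ => p.1 < p.2 ∧ c p.1 p.2 = t)).card := by
  classical
  rw [Finset.card_filter, Finset.sum_product_right]
  unfold cnt
  refine Finset.sum_congr rfl fun j hj => ?_
  rw [Finset.mem_range] at hj
  have h1 : Finset.range j ⊆ Finset.range K := Finset.range_subset_range.2 hj.le
  rw [← Finset.sum_subset h1]
  · refine Finset.sum_congr rfl fun i hi => ?_
    rw [Finset.mem_range] at hi
    simp only [hi, true_and]
  · intro i _ hi
    rw [Finset.mem_range] at hi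
    rw [if_neg]
    exact fun h => hi h.1

theorem mult_le_card {n : ℕ} {C : Finset Plane} {P : ℕ → ℂ} (d : ℝ)
    (hP : ∀ p : Plane, p ∈ C ↔ ∃ i < n, toC p = P i) :
    mult C d ≤ ((Finset.range n ×ˢ Finset.range n).filter
      (fun p : ℕ × ℕ => p.1 < p.2 ∧ dist (P p.1) (P p.2) = d)).card := by
  classical
  obtain ⟨E, hE⟩ : ∃ E, E = (Finset.range n ×ˢ Finset.range n).filter
      (fun p : ℕ × ℕ => p.1 < p.2 ∧ dist (P p.1) (P p.2) = d) := ⟨_, rfl⟩
  rw [← hE]
  have h1 : ∀ p : Plane, ∃ i : ℕ, p ∈ C → i < n ∧ toC p = P i := by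
    intro p
    by_cases h : p ∈ C
    · obtain ⟨i, hi, hi'⟩ := (hP p).1 h
      exact ⟨i, fun _ => ⟨hi, hi'⟩⟩
    · exact ⟨0, fun h' => absurd h' h⟩
  choose idx hidx using h1
  have hinj : ∀ p ∈ C, ∀ q ∈ C, idx p = idx q → p = q := by
    intro p hp q hq h
    have h2 : toC p = toC q := by
      rw [(hidx p hp).2, (hidx q hq).2, h]
    have h0 := congrArg Complex.re h2
    have h3 := congrArg Complex.im h2
    simp only [toC] at h0 h3
    ext i
    fin_cases i
    · exact h0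
    · exact h3
  unfold mult
  have h2 : (C.offDiag.filter (fun z => dist z.1 z.2 = d)).card ≤
      (E ∪ E.image Prod.swap).card := by
    refine Finset.card_le_card_of_injOn (fun z => (idx z.1, idx z.2)) ?_ ?_
    · intro z hz
      rw [Finset.mem_coe, Finset.mem_filter, Finset.mem_offDiag] at hz
      obtain ⟨⟨hz1, hz2, hz3⟩, hz4⟩ := hz
      have a1 := hidx _ hz1
      have a2 := hidx _ hz2
      have a3 : idx z.1 ≠ idx z.2 := fun h => hz3 (hinj _ hz1 _ hz2 h)
      have a4 : dist (P (idx z.1)) (P (idx z.2)) = d := by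
        rw [← a1.2, ← a2.2, dist_toC, hz4]
      rw [Finset.mem_coe, Finset.mem_union]
      rcases lt_or_gt_of_ne a3 with h | h
      · left
        rw [hE, Finset.mem_filter, Finset.mem_product, Finset.mem_range, Finset.mem_range]
        exact ⟨⟨a1.1, a2.1⟩, h, a4⟩
      · right
        rw [Finset.mem_image]
        refine ⟨(idx z.2, idx z.1), ?_, rfl⟩
        rw [hE, Finset.mem_filter, Finset.mem_product, Finset.mem_range, Finset.mem_range]
        refine ⟨⟨a2.1, a1.1⟩, h, ?_⟩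
        rw [dist_comm]
        exact a4
    · intro z hz z' hz' h
      rw [Finset.mem_coe, Finset.mem_filter, Finset.mem_offDiag] at hz hz'
      rw [Prod.mk.injEq] at h
      exact Prod.ext (hinj _ hz.1.1 _ hz'.1.1 h.1) (hinj _ hz.1.2.1 _ hz'.1.2.1 h.2)
  have h3 := Finset.card_union_le E (E.image Prod.swap)
  have h4 := Finset.card_image_le (s := E) (f := Prod.swap)
  have h5 : (C.offDiag.filter (fun z => dist z.1 z.2 = d)).card ≤ 2 * E.card := by
    omega
  refine (Nat.div_le_div_right h5).trans ?_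
  omega

theorem main {n m : ℕ} {C : Finset Plane} {d₁ d₂ : ℝ} {P : ℕ → ℂ} (hP : CCW n P) (hm : 1 ≤ m)
    (hC : ∀ p : Plane, p ∈ C ↔ ∃ i < n, toC p = P i)
    (hinj : ∀ i < n, ∀ j < n, P i = P j → i = j) (h : d₁ < d₂)
    (h1 : m ≤ mult C d₁) (h2 : m ≤ mult C d₂) :
    ∃ c : ℕ → ℕ → ℕ, Sym c ∧ Fits n c ∧ cnt 1 c n = m ∧ cnt 2 c n = m := by
  classical
  obtain ⟨A, hA, hAm⟩ := Finset.exists_subset_card_eq (h1.trans (mult_le_card d₁ hC))
  obtain ⟨B, hB, hBm⟩ := Finset.exists_subset_card_eq (h2.trans (mult_le_card d₂ hC))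
  have hA' : ∀ z ∈ A, z.1 < n ∧ z.2 < n ∧ z.1 < z.2 ∧ dist (P z.1) (P z.2) = d₁ := by
    intro z hz
    have := hA hz
    rw [Finset.mem_filter, Finset.mem_product, Finset.mem_range, Finset.mem_range] at this
    exact ⟨this.1.1, this.1.2, this.2.1, this.2.2⟩
  have hB' : ∀ z ∈ B, z.1 < n ∧ z.2 < n ∧ z.1 < z.2 ∧ dist (P z.1) (P z.2) = d₂ := by
    intro z hz
    have := hB hz
    rw [Finset.mem_filter, Finset.mem_product, Finset.mem_range, Finset.mem_range] at this
    exact ⟨this.1.1, this.1.2, this.2.1, this.2.2⟩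
  have hAB : ∀ z ∈ A, z ∉ B := fun z hz hz' =>
    h.ne ((hA' z hz).2.2.2.symm.trans (hB' z hz').2.2.2)
  have hd : 0 < d₁ := by
    have h3 : A.Nonempty := by
      rw [← Finset.card_pos]
      omega
    obtain ⟨z, hz⟩ := h3
    obtain ⟨a1, a2, a3, a4⟩ := hA' z hz
    rw [← a4]
    exact dist_pos.2 fun h => a3.ne (hinj _ a1 _ a2 h)
  obtain ⟨c, hc⟩ : ∃ c : ℕ → ℕ → ℕ, ∀ i j, c i j =
    if (min i j, max i j) ∈ A then 1 else if (min i j, max i j) ∈ B then 2 else 0 :=
    ⟨_, fun _ _ => rfl⟩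
  have hc1 : ∀ i j, c i j = 1 ↔ (min i j, max i j) ∈ A := by
    intro i j
    rw [hc]
    by_cases h3 : (min i j, max i j) ∈ A
    · simp [h3]
    · by_cases h4 : (min i j, max i j) ∈ B <;> simp [h3, h4]
  have hc2 : ∀ i j, c i j = 2 ↔ (min i j, max i j) ∈ B := by
    intro i j
    rw [hc]
    by_cases h3 : (min i j, max i j) ∈ A
    · simp [h3, hAB _ h3]
    · by_cases h4 : (min i j, max i j) ∈ B <;> simp [h3, h4]
  have hcard : ∀ (t : ℕ) (S : Finset (ℕ × ℕ)),
      (∀ z ∈ S, z.1 < n ∧ z.2 < n ∧ z.1 < z.2) → (∀ i j, c i j = t ↔ (min i j, max i j) ∈ S) →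
      cnt t c n = S.card := by
    intro t S hS hct
    rw [cnt_eq]
    congr 1
    ext z
    rw [Finset.mem_filter, Finset.mem_product, Finset.mem_range, Finset.mem_range, hct]
    constructor
    · rintro ⟨_, h3, h4⟩
      rwa [min_eq_left h3.le, max_eq_right h3.le] at h4
    · intro h3
      obtain ⟨a1, a2, a3⟩ := hS z h3
      rw [min_eq_left a3.le, max_eq_right a3.le]
      exact ⟨⟨a1, a2⟩, a3, h3⟩
  refine ⟨c, ⟨?_, ?_⟩, ⟨P, d₁, d₂, hP, hd, h, ?_⟩, ?_, ?_⟩
  · intro i j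
    rw [hc, hc, min_comm, max_comm]
  · intro i j
    rw [hc]
    split_ifs <;> omega
  · intro i j _ _ _
    have key : ∀ d, dist (P (min i j)) (P (max i j)) = d → dist (P i) (P j) = d := by
      intro d hd
      rcases le_total i j with h5 | h5
      · rwa [min_eq_left h5, max_eq_right h5] at hd
      · rw [min_eq_right h5, max_eq_left h5] at hd
        rw [dist_comm]
        exact hd
    constructor
    · intro h4
      exact key _ (hA' _ ((hc1 i j).1 h4)).2.2.2
    · intro h4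
      exact key _ (hB' _ ((hc2 i j).1 h4)).2.2.2
  · rw [hcard 1 A (fun z hz => ⟨(hA' z hz).1, (hA' z hz).2.1, (hA' z hz).2.2.1⟩) hc1, hAm]
  · rw [hcard 2 B (fun z hz => ⟨(hB' z hz).1, (hB' z hz).2.1, (hB' z hz).2.2.1⟩) hc2, hBm]

theorem st_MULT (hO : ST_ORDER) : ST_MULT := by
  intro n m C d₁ d₂ hn hm hC hd h1 h2
  obtain ⟨P, hP, hinj, hPC⟩ := hO n C hn hC
  rcases lt_or_gt_of_ne hd with h | h
  · exact main hP hm hPC hinj h h1 h2
  · obtain ⟨c, hs, hf, a, b⟩ := main hP hm hPC hinj h h2 h1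
    exact ⟨c, hs, hf, a, b⟩

end Pool.Agent.Helper93.CPX
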