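import Pool.Agent.Helper14.CPX.Stmts

/-!
The vertices of a convex polygon in counterclockwise order.
-/

set_option autoImplicit false

namespace Pool.Agent.Helper93.CPX

open Pool.Agent.Helper14.CPX Pool.Agent.Helper14.Poly

theorem toC_inj {p q : Plane} (h : toC p = toC q) : p = q := by
  have h0 := congrArg Complex.re h
  have h1 := congrArg Complex.im h
  simp only [toC] at h0 h1
  ext i
  fin_cases i
  · exact h0
  · exact h1

theorem lin_eq (f : Plane →L[ℝ] ℝ) (p : Plane) :
    f p = f (EuclideanSpace.single 0 1) * p 0 + f (EuclideanSpace.single 1 1) * p 1 := by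
  have h : p = p 0 • EuclideanSpace.single (0 : Fin 2) (1 : ℝ) +
      p 1 • EuclideanSpace.single (1 : Fin 2) (1 : ℝ) := by
    ext i
    fin_cases i <;> simp
  conv_lhs => rw [h]
  rw [map_add, map_smul, map_smul, smul_eq_mul, smul_eq_mul]
  ring

/-- a combination of two other points -/
theorem not_comb2 {C : Finset Plane} {x p q : Plane}
    (hC : x ∉ convexHull ℝ ((C : Set Plane) \ {x})) (hp : p ∈ C) (hq : q ∈ C)
    (hpx : p ≠ x) (hqx : q ≠ x) {a b : ℝ} (ha : 0 ≤ a) (hb : 0 ≤ b) (hab : a + b = 1)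
    (h : x = a • p + b • q) : False := by
  apply hC
  have h1 := convex_convexHull ℝ ((C : Set Plane) \ {x})
    (subset_convexHull ℝ _ ⟨hp, hpx⟩) (subset_convexHull ℝ _ ⟨hq, hqx⟩) ha hb hab
  rwa [← h] at h1

/-- a combination of three other points -/
theorem not_comb3 {C : Finset Plane} {x p q s : Plane}
    (hC : x ∉ convexHull ℝ ((C : Set Plane) \ {x})) (hp : p ∈ C) (hq : q ∈ C) (hs : s ∈ C)
    (hpx : p ≠ x) (hqx : q ≠ x) (hsx : s ≠ x) {a b c : ℝ} (ha : 0 ≤ a) (hb : 0 ≤ b) (hc : 0 ≤ c)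
    (habc : a + b + c = 1) (h : x = a • p + b • q + c • s) : False := by
  apply hC
  have h1 := (convex_convexHull ℝ ((C : Set Plane) \ {x})).sum_mem (t := Finset.univ)
    (w := ![a, b, c]) (z := ![p, q, s]) (by
      intro i _
      fin_cases i
      · exact ha
      · exact hb
      · exact hc) (by simp [Fin.sum_univ_three, habc]) (by
      intro i _
      fin_cases i
      · exact subset_convexHull ℝ _ ⟨hp, hpx⟩
      · exact subset_convexHull ℝ _ ⟨hq, hqx⟩
      · exact subset_convexHull ℝ _ ⟨hs, hsx⟩)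
  simp only [Fin.sum_univ_three, Matrix.cons_val_zero, Matrix.cons_val_one,
    Matrix.cons_val_two, Matrix.head_cons, Matrix.tail_cons] at h1
  rwa [← h] at h1

theorem st_ORDER : ST_ORDER := by
  classical
  intro n C hn hC
  obtain ⟨hcard, hconv⟩ := hC
  have hne : C.Nonempty := by
    rw [← Finset.card_pos]
    omega
  obtain ⟨p0, hp0⟩ := hne
  have hfin : ((C : Set Plane) \ {p0}).Finite := C.finite_toSet.subset Set.sdiff_subset
  obtain ⟨f, u, hf0, hf⟩ := geometric_hahn_banach_point_closed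
    (convex_convexHull ℝ ((C : Set Plane) \ {p0})) (hfin.isClosed_convexHull ℝ) (hconv p0 hp0)
  obtain ⟨a, ha⟩ : ∃ a, a = f (EuclideanSpace.single 0 1) := ⟨_, rfl⟩
  obtain ⟨b, hb⟩ : ∃ b, b = f (EuclideanSpace.single 1 1) := ⟨_, rfl⟩
  obtain ⟨F, hF⟩ : ∃ F : Plane → ℝ, ∀ q, F q = a * (q 0 - p0 0) + b * (q 1 - p0 1) :=
    ⟨_, fun _ => rfl⟩
  obtain ⟨G, hG⟩ : ∃ G : Plane → ℝ, ∀ q, G q = -b * (q 0 - p0 0) + a * (q 1 - p0 1) :=
    ⟨_, fun _ => rfl⟩
  have hFpos : ∀ q ∈ C, q ≠ p0 → 0 < F q := by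
    intro q hq hne
    have h1 := hf q (subset_convexHull ℝ _ ⟨hq, hne⟩)
    have h2 := hf0.trans h1
    rw [lin_eq f p0, lin_eq f q, ← ha, ← hb] at h2
    rw [hF]
    linarith
  -- the cross product in terms of `F`, `G`
  have hcr : ∀ q r : Plane, F q * G r - G q * F r =
      (a ^ 2 + b ^ 2) * crs (toC p0) (toC q) (toC r) := by
    intro q r
    simp only [hF, hG, crs, toC]
    ring
  have hab : 0 < a ^ 2 + b ^ 2 := by
    have h1 : ∃ q ∈ C, q ≠ p0 := by
      by_contra h
      push Not at h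
      have : C ⊆ {p0} := fun q hq => Finset.mem_singleton.2 (h q hq)
      have := Finset.card_le_card this
      rw [Finset.card_singleton] at this
      omega
    obtain ⟨q, hq, hqp⟩ := h1
    have h2 := hFpos q hq hqp
    by_contra h3
    have h4 : a = 0 := by nlinarith [sq_nonneg a, sq_nonneg b]
    have h5 : b = 0 := by nlinarith [sq_nonneg a, sq_nonneg b]
    rw [hF, h4, h5] at h2
    simp at h2
  obtain ⟨t, ht⟩ : ∃ t : Plane → ℝ, ∀ q, t q = G q / F q := ⟨_, fun _ => rfl⟩
  have hlt : ∀ q ∈ C, q ≠ p0 → ∀ r ∈ C, r ≠ p0 → t q < t r →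
      0 < crs (toC p0) (toC q) (toC r) := by
    intro q hq hq' r hr hr' h
    rw [ht, ht, div_lt_div_iff₀ (hFpos q hq hq') (hFpos r hr hr')] at h
    have h1 := hcr q r
    have h2 : 0 < (a ^ 2 + b ^ 2) * crs (toC p0) (toC q) (toC r) := by
      rw [← h1]
      linarith
    exact (pos_iff_pos_of_mul_pos h2).1 hab
  -- points on a ray from `p0`
  have hray : ∀ q ∈ C, q ≠ p0 → ∀ r ∈ C, r ≠ p0 → crs (toC p0) (toC q) (toC r) = 0 →
      F q ≤ F r → q = r := by
    intro q hq hq' r hr hr' h hle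
    by_contra hne
    have h1 := hFpos q hq hq'
    have h2 := hFpos r hr hr'
    have h3 : F q * G r - G q * F r = 0 := by rw [hcr, h, mul_zero]
    obtain ⟨c, hc⟩ : ∃ c, c = F q / F r := ⟨_, rfl⟩
    have hc1 : c * F r = F q := by rw [hc]; field_simp
    have hc2 : c * G r = G q := by
      have : c * G r * F r = G q * F r := by
        rw [show c * G r * F r = (c * F r) * G r by ring, hc1]
        linarith
      exact mul_right_cancel₀ h2.ne' this
    have hc3 : 0 ≤ c := by rw [hc]; positivity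
    have hc4 : c ≤ 1 := by rw [hc, div_le_one h2]; exact hle
    rw [hF, hF] at hc1
    rw [hG, hG] at hc2
    have hx : (a ^ 2 + b ^ 2) * (c * (r 0 - p0 0)) = (a ^ 2 + b ^ 2) * (q 0 - p0 0) := by
      linear_combination a * hc1 - b * hc2
    have hy : (a ^ 2 + b ^ 2) * (c * (r 1 - p0 1)) = (a ^ 2 + b ^ 2) * (q 1 - p0 1) := by
      linear_combination b * hc1 + a * hc2
    have hx' := mul_left_cancel₀ hab.ne' hx
    have hy' := mul_left_cancel₀ hab.ne' hy
    refine not_comb2 (hconv q hq) hp0 hr (Ne.symm hq') (Ne.symm hne) (a := 1 - c) (b := c)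
      (by linarith) hc3 (by ring) ?_
    ext i
    fin_cases i
    · simp only [PiLp.add_apply, PiLp.smul_apply, smul_eq_mul, Fin.zero_eta]
      linarith
    · simp only [PiLp.add_apply, PiLp.smul_apply, smul_eq_mul, Fin.mk_one]
      linarith
  have hinj : ∀ q ∈ C, q ≠ p0 → ∀ r ∈ C, r ≠ p0 → t q = t r → q = r := by
    intro q hq hq' r hr hr' h
    rw [ht, ht, div_eq_div_iff (hFpos q hq hq').ne' (hFpos r hr hr').ne'] at h
    have h1 := hcr q r
    have h2 : (a ^ 2 + b ^ 2) * crs (toC p0) (toC q) (toC r) = 0 := by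
      rw [← h1]
      linarith
    have h3 := (mul_eq_zero.1 h2).resolve_left hab.ne'
    rcases le_total (F q) (F r) with h4 | h4
    · exact hray q hq hq' r hr hr' h3 h4
    · have h5 : crs (toC p0) (toC r) (toC q) = 0 := by
        have : crs (toC p0) (toC r) (toC q) = - crs (toC p0) (toC q) (toC r) := by
          simp only [crs]
          ring
        rw [this, h3, neg_zero]
      exact (hray r hr hr' q hq hq' h5 h4).symm
  -- sorting
  have hTc : ((C.erase p0).image t).card = n - 1 := by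
    rw [Finset.card_image_of_injOn, Finset.card_erase_of_mem hp0, hcard]
    intro q hq r hr h
    rw [Finset.mem_coe, Finset.mem_erase] at hq hr
    exact hinj q hq.2 hq.1 r hr.2 hr.1 h
  obtain ⟨e, he⟩ : ∃ e : Fin (n - 1) ↪o ℝ, e = ((C.erase p0).image t).orderEmbOfFin hTc :=
    ⟨_, rfl⟩
  have hQ : ∀ i : Fin (n - 1), ∃ q, (q ∈ C ∧ q ≠ p0) ∧ t q = e i := by
    intro i
    have h1 : e i ∈ (C.erase p0).image t := by
      rw [he]
      exact Finset.orderEmbOfFin_mem _ hTc i
    obtain ⟨q, hq, hqt⟩ := Finset.mem_image.1 h1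
    rw [Finset.mem_erase] at hq
    exact ⟨q, ⟨hq.2, hq.1⟩, hqt⟩
  choose Q hQC hQt using hQ
  obtain ⟨R, hR⟩ : ∃ R : ℕ → Plane, ∀ i, R i = if h : 0 < i ∧ i - 1 < n - 1 then
    Q ⟨i - 1, h.2⟩ else p0 := ⟨_, fun _ => rfl⟩
  have hR0 : R 0 = p0 := by
    rw [hR, dif_neg (by omega)]
  have hRm : ∀ i, 0 < i → i < n → R i ∈ C ∧ R i ≠ p0 := by
    intro i h1 h2
    rw [hR, dif_pos (by omega : 0 < i ∧ i - 1 < n - 1)]
    exact hQC _
  have hRt : ∀ i j, 0 < i → i < j → j < n → t (R i) < t (R j) := by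
    intro i j h1 h2 h3
    rw [hR i, hR j, dif_pos (by omega : 0 < i ∧ i - 1 < n - 1),
      dif_pos (by omega : 0 < j ∧ j - 1 < n - 1), hQt, hQt]
    apply e.strictMono
    rw [Fin.mk_lt_mk]
    omega
  have hRC : ∀ i, i < n → R i ∈ C := by
    intro i hi
    rcases Nat.eq_zero_or_pos i with h | h
    · rw [h, hR0]
      exact hp0
    · exact (hRm i h hi).1
  have hRinj : ∀ i j, i < j → j < n → R i ≠ R j := by
    intro i j h1 h2 h3
    rcases Nat.eq_zero_or_pos i with h | h
    · rw [h, hR0] at h3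
      exact (hRm j (by omega) h2).2 h3.symm
    · have := hRt i j h h1 h2
      rw [h3] at this
      exact lt_irrefl _ this
  have hR1 : ∀ i j, 0 < i → i < j → j < n → 0 < crs (toC p0) (toC (R i)) (toC (R j)) := by
    intro i j h1 h2 h3
    have hi := hRm i h1 (by omega)
    have hj := hRm j (by omega) h3
    exact hlt _ hi.1 hi.2 _ hj.1 hj.2 (hRt i j h1 h2 h3)
  refine ⟨fun i => toC (R i), ?_, ?_, ?_⟩
  · intro i j l hij hjl hl
    show 0 < crs (toC (R i)) (toC (R j)) (toC (R l))
    rcases Nat.eq_zero_or_pos i with h | h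
    · rw [h, hR0]
      exact hR1 j l (by omega) hjl hl
    · have e1 := hR1 i j h hij (by omega)
      have e2 := hR1 j l (by omega) hjl hl
      have e3 := hR1 i l h (by omega) hl
      by_contra h4
      have h5 : crs (toC (R i)) (toC (R j)) (toC (R l)) ≤ 0 := not_lt.1 h4
      have hd : crs (toC p0) (toC (R i)) (toC (R j)) + crs (toC p0) (toC (R j)) (toC (R l)) -
          crs (toC (R i)) (toC (R j)) (toC (R l)) = crs (toC p0) (toC (R i)) (toC (R l)) := by
        simp only [crs]
        ring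
      have hj := hRm j (by omega) (by omega)
      refine not_comb3 (hconv _ hj.1) hp0 (hRC i (by omega)) (hRC l hl) hj.2.symm
        (hRinj i j hij (by omega)) (hRinj j l hjl hl).symm
        (a := - crs (toC (R i)) (toC (R j)) (toC (R l)) / crs (toC p0) (toC (R i)) (toC (R l)))
        (b := crs (toC p0) (toC (R j)) (toC (R l)) / crs (toC p0) (toC (R i)) (toC (R l)))
        (c := crs (toC p0) (toC (R i)) (toC (R j)) / crs (toC p0) (toC (R i)) (toC (R l)))
        (div_nonneg (by linarith) e3.le) (div_nonneg e2.le e3.le) (div_nonneg e1.le e3.le) ?_ ?_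
      · rw [← add_div, ← add_div, div_eq_one_iff_eq e3.ne']
        linarith
      · have key : crs (toC p0) (toC (R i)) (toC (R l)) ≠ 0 := e3.ne'
        ext k
        fin_cases k
        · simp only [PiLp.add_apply, PiLp.smul_apply, smul_eq_mul, Fin.zero_eta]
          rw [div_mul_eq_mul_div, div_mul_eq_mul_div, div_mul_eq_mul_div, ← add_div, ← add_div,
            eq_div_iff key]
          simp only [crs, toC]
          ring
        · simp only [PiLp.add_apply, PiLp.smul_apply, smul_eq_mul, Fin.mk_one]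
          rw [div_mul_eq_mul_div, div_mul_eq_mul_div, div_mul_eq_mul_div, ← add_div, ← add_div,
            eq_div_iff key]
          simp only [crs, toC]
          ring
  · intro i hi j hj h
    have h1 := toC_inj h
    rcases lt_trichotomy i j with h2 | h2 | h2
    · exact absurd h1 (hRinj i j h2 hj)
    · exact h2
    · exact absurd h1.symm (hRinj j i h2 hi)
  · intro p
    constructor
    · intro hp
      by_cases h : p = p0
      · exact ⟨0, by omega, by rw [h]; show toC p0 = toC (R 0); rw [hR0]⟩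
      · have h1 : t p ∈ (C.erase p0).image t :=
          Finset.mem_image_of_mem t (Finset.mem_erase.2 ⟨h, hp⟩)
        have h2 : t p ∈ Set.range e := by
          rw [he, Finset.range_orderEmbOfFin]
          exact h1
        obtain ⟨i, hi⟩ := h2
        have h3 : Q i = p := hinj _ (hQC i).1 (hQC i).2 p hp h (by rw [hQt, hi])
        refine ⟨i + 1, by omega, ?_⟩
        show toC p = toC (R (i + 1))
        rw [hR, dif_pos (by omega : 0 < (i : ℕ) + 1 ∧ (i : ℕ) + 1 - 1 < n - 1)]
        have h4 : (⟨(i : ℕ) + 1 - 1, by omega⟩ : Fin (n - 1)) = i := by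
          apply Fin.ext
          simp
        rw [h4, h3]
    · rintro ⟨i, hi, h⟩
      rw [toC_inj h]
      exact hRC i hi

end Pool.Agent.Helper93.CPX
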